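import Mathlib

/-!
# The combinatorial data

For a well-ordered set `I` with countable initial segments we construct subsets `S α` of `ℕ` and
injections `k α` of the initial segments into `ℕ` with almost-disjointness properties.
-/

namespace Pool.Agent.Lib.MP_1abf27_gt

/-- the data used to build the surface -/
structure WalkData (I : Type) [LinearOrder I] where
  S : I → Set ℕ
  k : I → I → ℕ
  lam : I → ℝ
  k_mem : ∀ β α, β < α → k α β ∈ S β
  k_not_mem : ∀ β α, β < α → k α β ∉ S α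
  k_inj : ∀ β γ α, β < α → γ < α → k α β = k α γ → β = γ
  fin : ∀ ε δ, ε < δ → ∃ m, (∀ a < δ, m ≤ k δ a → k δ a ∉ S ε ∧ ∀ b < ε, k ε b ≠ k δ a) ∧
    (∀ b < ε, m ≤ k ε b → k ε b ∉ S δ)
  lam_gt : ∀ α, 1 < lam α
  lam_lt : ∀ α, lam α < 2
  lam_inj : Function.Injective lam

/-- the columns of `ℕ ≃ ℕ × ℕ` -/
def col (n : ℕ) : Set ℕ := {j | (Nat.unpair j).1 = n}

lemma col_infinite (n : ℕ) : (col n).Infinite := by
  have h : Set.range (fun i => Nat.pair n i) ⊆ col n := by
    rintro _ ⟨i, rfl⟩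
    simp [col]
  refine Set.Infinite.mono h (Set.infinite_range_of_injective ?_)
  intro i j hij
  have : (Nat.unpair (Nat.pair n i)).2 = (Nat.unpair (Nat.pair n j)).2 := by
    simpa using congrArg (fun x => (Nat.unpair x).2) hij
  simpa using this

lemma col_inter {m n : ℕ} (h : m ≠ n) : col m ∩ col n = ∅ := by
  ext j
  simp only [col, Set.mem_inter_iff, Set.mem_ofPred_eq, Set.mem_empty_iff_false, iff_false,
    not_and]
  intro h1 h2
  exact h (h1.symm.trans h2)

/-- pseudo-complement of a sequence of sets no finite union of which is cofinite -/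
lemma exists_pseudo (F : ℕ → Set ℕ) (hF : ∀ n, ((⋃ i ∈ Set.Iio n, F i)ᶜ).Infinite) :
    ∃ S : Set ℕ, S.Infinite ∧ ∀ i, (S ∩ F i).Finite := by
  have pick : ∀ n b : ℕ, ∃ x, b < x ∧ x ∉ ⋃ i ∈ Set.Iio n, F i := by
    intro n b
    obtain ⟨x, hx, hbx⟩ := (hF n).exists_gt b
    exact ⟨x, hbx, hx⟩
  choose g hg1 hg2 using pick
  let s : ℕ → ℕ := fun n => Nat.rec (g 0 0) (fun m sm => g (m + 1) sm) n
  have hs0 : s 0 = g 0 0 := rfl
  have hs1 : ∀ n, s (n + 1) = g (n + 1) (s n) := fun n => rfl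
  have hmono : StrictMono s := strictMono_nat_of_lt_succ (fun n => by
    rw [hs1]; exact hg1 _ _)
  have hnot : ∀ n, s n ∉ ⋃ i ∈ Set.Iio n, F i := by
    intro n
    cases n with
    | zero => rw [hs0]; exact hg2 0 0
    | succ n => rw [hs1]; exact hg2 _ _
  refine ⟨Set.range s, Set.infinite_range_of_injective hmono.injective, ?_⟩
  intro i
  refine Set.Finite.subset ((Set.finite_Iic i).image s) ?_
  rintro _ ⟨⟨n, rfl⟩, hn⟩
  refine ⟨n, ?_, rfl⟩
  by_contra hc
  have hc' : i < n := not_le.mp hc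
  exact hnot n (Set.mem_iUnion₂.mpr ⟨i, hc', hn⟩)

variable {I : Type} [LinearOrder I]

/-- range of a function on an initial segment -/
def rg (β : I) (d : Set ℕ × (I → ℕ)) : Set ℕ := {n | ∃ γ < β, d.2 γ = n}

/-- the inductive hypothesis of the construction -/
structure Good (α : I) (F : I → Set ℕ × (I → ℕ)) (d : Set ℕ × (I → ℕ)) : Prop where
  g1 : d.1.Infinite
  g2 : ∀ n, (d.1 ∩ col n).Finite
  g3 : ∀ β < α, (d.1 ∩ (F β).1).Finite
  g4 : ∀ β < α, (d.1 ∩ rg β (F β)).Finite
  g5 : ∀ β < α, d.2 β ∈ (F β).1 ∧ d.2 β ∉ d.1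
  g6 : ∀ β < α, ∀ γ < α, d.2 β = d.2 γ → β = γ
  g7 : ∀ n, (rg α d ∩ col n).Finite
  g8 : ∀ β < α, (rg α d ∩ (F β).1).Finite
  g9 : ∀ β < α, (rg α d ∩ rg β (F β)).Finite

lemma good_congr {α : I} {F F' : I → Set ℕ × (I → ℕ)} {d : Set ℕ × (I → ℕ)}
    (h : ∀ β < α, F β = F' β) (hg : Good α F d) : Good α F' d where
  g1 := hg.g1
  g2 := hg.g2
  g3 := fun β hβ => by rw [← h β hβ]; exact hg.g3 β hβ
  g4 := fun β hβ => by rw [← h β hβ]; exact hg.g4 β hβ
  g5 := fun β hβ => by rw [← h β hβ]; exact hg.g5 β hβ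
  g6 := hg.g6
  g7 := hg.g7
  g8 := fun β hβ => by rw [← h β hβ]; exact hg.g8 β hβ
  g9 := fun β hβ => by rw [← h β hβ]; exact hg.g9 β hβ

lemma exists_good (hc : ∀ α : I, (Set.Iio α).Countable) (α : I)
    (F : I → Set ℕ × (I → ℕ)) (hF : ∀ β < α, Good β F (F β)) :
    ∃ d, Good α F d := by
  classical
  have hcount : Countable (Set.Iio α) := hc α
  obtain ⟨idx, hidx⟩ := hcount.exists_injective_nat
  -- pairwise properties
  have hSS : ∀ β < α, ∀ γ < α, β ≠ γ → ((F β).1 ∩ (F γ).1).Finite := by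
    intro β hβ γ hγ hne
    rcases lt_or_gt_of_ne hne with h | h
    · rw [Set.inter_comm]; exact (hF γ hγ).g3 β h
    · exact (hF β hβ).g3 γ h
  have hSR : ∀ β < α, ∀ γ < α, ((F β).1 ∩ rg γ (F γ)).Finite := by
    intro β hβ γ hγ
    rcases lt_trichotomy β γ with h | h | h
    · rw [Set.inter_comm]; exact (hF γ hγ).g8 β h
    · subst h
      have : (F β).1 ∩ rg β (F β) = ∅ := by
        ext n
        simp only [Set.mem_inter_iff, Set.mem_empty_iff_false, iff_false, not_and]
        rintro h1 ⟨δ, hδ, rfl⟩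
        exact ((hF β hβ).g5 δ hδ).2 h1
      rw [this]; exact Set.finite_empty
    · exact (hF β hβ).g4 γ h
  let B : ℕ → Set ℕ := fun i => ⋃ β : Set.Iio α, ⋃ _ : idx β = i,
    ((F β.1).1 ∪ rg β.1 (F β.1))
  have hB : ∀ β : Set.Iio α, B (idx β) = (F β.1).1 ∪ rg β.1 (F β.1) := by
    intro β
    apply Set.Subset.antisymm
    · intro n hn
      simp only [B, Set.mem_iUnion] at hn
      obtain ⟨γ, h1, h2⟩ := hn
      have : γ = β := hidx h1
      subst this; exact h2
    · intro n hn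
      simp only [B, Set.mem_iUnion]
      exact ⟨β, rfl, hn⟩
  have hB' : ∀ i, (∃ β : Set.Iio α, idx β = i) ∨ B i = ∅ := by
    intro i
    by_cases h : ∃ β : Set.Iio α, idx β = i
    · exact Or.inl h
    · right
      ext n
      simp only [B, Set.mem_iUnion, Set.mem_empty_iff_false, iff_false]
      rintro ⟨β, h1, _⟩
      exact h ⟨β, h1⟩
  let A : ℕ → Set ℕ := fun i => col i ∪ B i
  have hBcol : ∀ i n, (col n ∩ B i).Finite := by
    intro i n
    rcases hB' i with ⟨β, hβ⟩ | h
    · rw [← hβ, hB β, Set.inter_union_distrib_left]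
      refine Set.Finite.union ?_ ?_
      · rw [Set.inter_comm]; exact (hF β.1 β.2).g2 n
      · rw [Set.inter_comm]; exact (hF β.1 β.2).g7 n
    · rw [h, Set.inter_empty]; exact Set.finite_empty
  have hAinf : ∀ n, ((⋃ i ∈ Set.Iio n, A i)ᶜ).Infinite := by
    intro n
    have h1 : (col n ∩ ⋃ i ∈ Set.Iio n, A i).Finite := by
      rw [Set.inter_iUnion₂]
      refine Set.Finite.biUnion (Set.finite_Iio n) ?_
      intro i hi
      have hi' : i < n := hi
      rw [Set.inter_union_distrib_left, col_inter (ne_of_gt hi'), Set.empty_union]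
      exact hBcol i n
    have h2 : (col n \ (col n ∩ ⋃ i ∈ Set.Iio n, A i)).Infinite := (col_infinite n).sdiff h1
    refine h2.mono ?_
    intro x hx hx2
    exact hx.2 ⟨hx.1, hx2⟩
  obtain ⟨S, hSinf, hS⟩ := exists_pseudo A hAinf
  have hSB : ∀ i, (S ∩ B i).Finite := fun i =>
    (hS i).subset (Set.inter_subset_inter_right _ (Set.subset_union_right))
  have hScol : ∀ i, (S ∩ col i).Finite := fun i =>
    (hS i).subset (Set.inter_subset_inter_right _ (Set.subset_union_left))
  have hkex : ∀ β : Set.Iio α, ∃ x, x ∈ (F β.1).1 ∧ x ∉ S ∧ ∀ i < idx β, x ∉ A i := by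
    intro β
    have h1 : ((F β.1).1 ∩ (S ∪ ⋃ i ∈ Set.Iio (idx β), A i)).Finite := by
      rw [Set.inter_union_distrib_left]
      refine Set.Finite.union ?_ ?_
      · have := hSB (idx β)
        rw [hB β] at this
        rw [Set.inter_comm]
        exact this.subset (Set.inter_subset_inter_right _ (Set.subset_union_left))
      · rw [Set.inter_iUnion₂]
        refine Set.Finite.biUnion (Set.finite_Iio _) ?_
        intro i hi
        have hi' : i < idx β := hi
        rw [Set.inter_union_distrib_left]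
        refine Set.Finite.union ((hF β.1 β.2).g2 i) ?_
        rcases hB' i with ⟨γ, hγ⟩ | h
        · rw [← hγ, hB γ, Set.inter_union_distrib_left]
          refine Set.Finite.union ?_ ?_
          · refine hSS β.1 β.2 γ.1 γ.2 ?_
            intro h
            have : β = γ := Subtype.ext h
            subst this
            omega
          · exact hSR β.1 β.2 γ.1 γ.2
        · rw [h, Set.inter_empty]; exact Set.finite_empty
    have h2 := ((hF β.1 β.2).g1.sdiff h1).nonempty
    obtain ⟨x, hx1, hx2⟩ := h2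
    refine ⟨x, hx1, ?_, ?_⟩
    · intro h; exact hx2 ⟨hx1, Or.inl h⟩
    · intro i hi h
      exact hx2 ⟨hx1, Or.inr (Set.mem_iUnion₂.mpr ⟨i, hi, h⟩)⟩
  choose kk hk1 hk2 hk3 using hkex
  let k : I → ℕ := fun β => if h : β < α then kk ⟨β, h⟩ else 0
  have hk : ∀ β (h : β < α), k β = kk ⟨β, h⟩ := fun β h => by simp [k, h]
  have hrg : ∀ i, (rg α (S, k) ∩ A i).Finite := by
    intro i
    have hfin : (Set.range (fun β : {β : Set.Iio α // idx β ≤ i} => kk β.1)).Finite := by
      have : Finite {β : Set.Iio α // idx β ≤ i} := by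
        refine Finite.of_injective (β := Set.Iic i) (fun β => ⟨idx β.1, β.2⟩) ?_
        intro β γ h
        have : idx β.1 = idx γ.1 := congrArg Subtype.val h
        exact Subtype.ext (hidx this)
      exact Set.finite_range _
    refine hfin.subset ?_
    rintro n ⟨⟨γ, hγ, rfl⟩, hn⟩
    have hγ' : γ < α := hγ
    refine ⟨⟨⟨γ, hγ'⟩, ?_⟩, (hk γ hγ').symm⟩
    by_contra hcon
    have hcon' : i < idx ⟨γ, hγ'⟩ := not_le.mp hcon
    have h2 := hk3 ⟨γ, hγ'⟩ i hcon'
    apply h2
    have : k γ ∈ A i := hn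
    rwa [hk γ hγ'] at this
  refine ⟨(S, k), ?_⟩
  constructor
  · exact hSinf
  · exact hScol
  · intro β hβ
    have := hSB (idx ⟨β, hβ⟩)
    rw [hB] at this
    exact this.subset (Set.inter_subset_inter_right _ (Set.subset_union_left))
  · intro β hβ
    have := hSB (idx ⟨β, hβ⟩)
    rw [hB] at this
    exact this.subset (Set.inter_subset_inter_right _ (Set.subset_union_right))
  · intro β hβ
    show k β ∈ (F β).1 ∧ k β ∉ S
    rw [hk β hβ]
    exact ⟨hk1 ⟨β, hβ⟩, hk2 ⟨β, hβ⟩⟩
  · intro β hβ γ hγ h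
    have h' : k β = k γ := h
    rw [hk β hβ, hk γ hγ] at h'
    by_contra hne
    have hne' : idx ⟨β, hβ⟩ ≠ idx ⟨γ, hγ⟩ := fun h3 => hne (congrArg Subtype.val (hidx h3))
    rcases lt_or_gt_of_ne hne' with h3 | h3
    · apply hk3 ⟨γ, hγ⟩ _ h3
      rw [← h']
      refine Or.inr ?_
      rw [hB]
      exact Or.inl (hk1 ⟨β, hβ⟩)
    · apply hk3 ⟨β, hβ⟩ _ h3
      rw [h']
      refine Or.inr ?_
      rw [hB]
      exact Or.inl (hk1 ⟨γ, hγ⟩)
  · intro n
    exact (hrg n).subset (Set.inter_subset_inter_right _ (Set.subset_union_left))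
  · intro β hβ
    have := hrg (idx ⟨β, hβ⟩)
    refine this.subset (Set.inter_subset_inter_right _ ?_)
    intro x hx
    refine Or.inr ?_
    rw [hB]
    exact Or.inl hx
  · intro β hβ
    have := hrg (idx ⟨β, hβ⟩)
    refine this.subset (Set.inter_subset_inter_right _ ?_)
    intro x hx
    refine Or.inr ?_
    rw [hB]
    exact Or.inr hx

open Classical in
/-- one step of the recursive construction -/
noncomputable def stepF (α : I) (f : (β : I) → β < α → Set ℕ × (I → ℕ)) : Set ℕ × (I → ℕ) :=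
  if h : ∃ d, Good α (fun β => if hβ : β < α then f β hβ else (∅, fun _ => 0)) d then
      Classical.choose h else (∅, fun _ => 0)

lemma stepF_good (α : I) (f : (β : I) → β < α → Set ℕ × (I → ℕ)) (F : I → Set ℕ × (I → ℕ))
    (hf : ∀ β (h : β < α), f β h = F β) (h : ∃ d, Good α F d) : Good α F (stepF α f) := by
  classical
  have h2 : ∃ d, Good α
      (fun β => if hβ : β < α then f β hβ else (∅, fun _ => 0)) d := by
    obtain ⟨d, hd⟩ := h
    refine ⟨d, good_congr ?_ hd⟩
    intro β hβ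
    simp [hβ, hf]
  have h3 : stepF α f = Classical.choose h2 := by
    unfold stepF
    rw [dif_pos h2]
  rw [h3]
  refine good_congr ?_ (Classical.choose_spec h2)
  intro β hβ
  simp [hβ, hf]

/-- the recursive construction -/
noncomputable def FF [WellFoundedLT I] : I → Set ℕ × (I → ℕ) :=
  (wellFounded_lt (α := I)).fix stepF

lemma FF_good [WellFoundedLT I] (hc : ∀ α : I, (Set.Iio α).Countable) (α : I) :
    Good α FF (FF α) := by
  classical
  induction α using (wellFounded_lt (α := I)).induction with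
  | _ α ih =>
    have h1 : ∃ d, Good α FF d := exists_good hc α FF ih
    have h3 : FF α = stepF α (fun β _ => FF β) := WellFounded.fix_eq _ _ _
    rw [h3]
    exact stepF_good α _ FF (fun _ _ => rfl) h1

omit [LinearOrder I] in
lemma exists_lam (hI : Cardinal.mk I ≤ Cardinal.continuum) :
    ∃ lam : I → ℝ, (∀ α, 1 < lam α) ∧ (∀ α, lam α < 2) ∧ Function.Injective lam := by
  have h1 : Cardinal.mk (Set.Ioo (1 : ℝ) 2) = Cardinal.continuum :=
    Cardinal.mk_Ioo_real (by norm_num)
  have h2 : Cardinal.mk I ≤ Cardinal.mk (Set.Ioo (1 : ℝ) 2) := by rw [h1]; exact hI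
  obtain ⟨f⟩ := h2
  refine ⟨fun α => (f α).1, fun α => (f α).2.1, fun α => (f α).2.2, ?_⟩
  intro a b h
  exact f.injective (Subtype.ext h)

theorem exists_walkData [WellFoundedLT I] (hc : ∀ α : I, (Set.Iio α).Countable)
    (hI : Cardinal.mk I ≤ Cardinal.continuum) : Nonempty (WalkData I) := by
  obtain ⟨lam, hl1, hl2, hl3⟩ := exists_lam hI
  refine ⟨⟨fun α => (FF α).1, fun α => (FF α).2, lam, ?_, ?_, ?_, ?_, hl1, hl2, hl3⟩⟩
  · intro β α h
    exact ((FF_good hc α).g5 β h).1
  · intro β α h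
    exact ((FF_good hc α).g5 β h).2
  · intro β γ α h1 h2 h3
    exact (FF_good hc α).g6 β h1 γ h2 h3
  · intro ε δ h
    have f1 := (FF_good hc δ).g8 ε h
    have f2 := (FF_good hc δ).g9 ε h
    have f3 := (FF_good hc δ).g4 ε h
    obtain ⟨m, hm⟩ := ((f1.union f2).union f3).bddAbove
    refine ⟨m + 1, ?_, ?_⟩
    · intro a ha hk
      refine ⟨?_, ?_⟩
      · intro hmem
        have := hm (Or.inl (Or.inl ⟨⟨a, ha, rfl⟩, hmem⟩))
        have h2 : (FF δ).2 a ≤ m := this
        omega
      · intro b hb he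
        have h3 : (FF δ).2 a ∈ rg ε (FF ε) := ⟨b, hb, he⟩
        have := hm (Or.inl (Or.inr ⟨⟨a, ha, rfl⟩, h3⟩))
        have h2 : (FF δ).2 a ≤ m := this
        omega
    · intro b hb hk hmem
      have := hm (Or.inr ⟨hmem, ⟨b, hb, rfl⟩⟩)
      have h2 : (FF ε).2 b ≤ m := this
      omega

end Pool.Agent.Lib.MP_1abf27_gt
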