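import Mathlib

/-!
# Definitions used in the statement
-/

namespace Pool.Agent.Lib.MP_1abf27_gt

/-- `U` is an open subset of `X` homeomorphic to `ℝⁿ`. -/
def IsCell (n : ℕ) {X : Type} [TopologicalSpace X] (U : Set X) : Prop :=
  IsOpen U ∧ Nonempty (U ≃ₜ EuclideanSpace ℝ (Fin n))

/-- `X` is a manifold of dimension `n ≥ 1`: a connected Hausdorff space in which every point has
an open neighbourhood homeomorphic to `ℝⁿ`. -/
structure IsTopManifold (n : ℕ) (X : Type) [TopologicalSpace X] : Prop where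
  dim_pos : 1 ≤ n
  connected : ConnectedSpace X
  hausdorff : T2Space X
  cells : ∀ x : X, ∃ U : Set X, x ∈ U ∧ IsCell n U

/-- The weight of a manifold of dimension `n`: `ℵ₀` plus the least cardinality of a cover by open
sets homeomorphic to `ℝⁿ`. -/
noncomputable def manifoldWeight (n : ℕ) (X : Type) [TopologicalSpace X] : Cardinal.{0} :=
  Cardinal.aleph0 + sInf {κ : Cardinal.{0} | ∃ C : Set (Set X),
    (∀ U ∈ C, IsCell n U) ∧ ⋃₀ C = Set.univ ∧ Cardinal.mk C = κ}

/-- `St(x, 𝒢)`: the union of the members of `𝒢` that contain `x`. -/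
def starOf {X : Type} (x : X) (G : Set (Set X)) : Set X := ⋃₀ {U | U ∈ G ∧ x ∈ U}

/-- `X` is quasi-developable: there are families `𝒢 0, 𝒢 1, …` of open sets such that for every
`x` and every open `U ∋ x` there is an `n` with `x ∈ St(x, 𝒢 n) ⊆ U`. -/
def QuasiDevelopable (X : Type) [TopologicalSpace X] : Prop :=
  ∃ G : ℕ → Set (Set X), (∀ n, ∀ V ∈ G n, IsOpen V) ∧
    ∀ x : X, ∀ U : Set X, IsOpen U → x ∈ U → ∃ n, x ∈ starOf x (G n) ∧ starOf x (G n) ⊆ U

end Pool.Agent.Lib.MP_1abf27_gt
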