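import Pool.Agent.Lib.MP_1abf27_gt.Space
import Pool.Agent.Lib.MP_1abf27_gt.Defs

/-!
# The surface is not quasi-developable
-/

namespace Pool.Agent.Lib.MP_1abf27_gt

open Filter Topology

/-- two sequences agree below `m` -/
def Agree (m : ℕ) (x y : ℕ → Bool) : Prop := ∀ i < m, x i = y i

lemma nhds_cantor {x : ℕ → Bool} {U : Set (ℕ → Bool)} (hU : U ∈ 𝓝 x) :
    ∃ m, ∀ y, Agree m x y → y ∈ U := by
  obtain ⟨V, hVU, hVo, hxV⟩ := mem_nhds_iff.mp hU
  rw [isOpen_pi_iff] at hVo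
  obtain ⟨s, u, h1, h2⟩ := hVo x hxV
  refine ⟨s.sup id + 1, ?_⟩
  intro y hy
  apply hVU
  apply h2
  intro i hi
  have hi' : i < s.sup id + 1 := Nat.lt_succ_of_le (Finset.le_sup (f := id) hi)
  rw [← hy i hi']
  exact (h1 i hi).2

lemma agree_mem_nhds (m : ℕ) (x : ℕ → Bool) : {y | Agree m x y} ∈ 𝓝 x := by
  have h : {y : ℕ → Bool | Agree m x y} = ⋂ i ∈ Finset.range m, {y : ℕ → Bool | x i = y i} := by
    ext y
    simp [Agree]
  rw [h]
  refine (Filter.biInter_finset_mem _).mpr ?_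
  intro i _
  have hc : Continuous (fun y : ℕ → Bool => y i) := continuous_apply i
  have ho : IsOpen {y : ℕ → Bool | x i = y i} := by
    have : {y : ℕ → Bool | x i = y i} = (fun y : ℕ → Bool => y i) ⁻¹' {x i} := by
      ext y; simp [eq_comm]
    rw [this]
    exact (isOpen_discrete _).preimage hc
  exact ho.mem_nhds rfl

/-- Baire category in the Cantor set of the subsets of `S` -/
lemma baire_cantor (S : Set ℕ) (D : ℕ → Set (ℕ → Bool))
    (hD : ∀ x : ℕ → Bool, (∀ i, x i = true → i ∈ S) → ∃ n, x ∈ D n) :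
    ∃ n, ∃ x : ℕ → Bool, (∀ i, x i = true → i ∈ S) ∧ ∃ m,
      ∀ y : ℕ → Bool, (∀ i, y i = true → i ∈ S) → Agree m x y → ∀ j,
        ∃ z ∈ D n, (∀ i, z i = true → i ∈ S) ∧ Agree j y z := by
  let K : Set (ℕ → Bool) := {x | ∀ i, x i = true → i ∈ S}
  have hKc : IsClosed K := by
    have : K = ⋂ i, {x : ℕ → Bool | x i = true → i ∈ S} := by
      ext x; simp [K]
    rw [this]
    refine isClosed_iInter (fun i => ?_)
    have hc : Continuous (fun y : ℕ → Bool => y i) := continuous_apply i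
    exact (isClosed_discrete {b : Bool | b = true → i ∈ S}).preimage hc
  have hcomp : CompactSpace K := isCompact_iff_compactSpace.mp hKc.isCompact
  have hne : Nonempty K := ⟨⟨fun _ => false, by intro i h; simp at h⟩⟩
  let E : ℕ → Set K := fun n => closure (Subtype.val ⁻¹' (D n))
  have hE : (⋃ n, E n) = Set.univ := by
    rw [Set.eq_univ_iff_forall]
    intro x
    obtain ⟨n, hn⟩ := hD x.1 x.2
    exact Set.mem_iUnion.mpr ⟨n, subset_closure hn⟩
  obtain ⟨n, x, hx⟩ := nonempty_interior_of_iUnion_of_closed (fun n => isClosed_closure) hE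
  refine ⟨n, x.1, x.2, ?_⟩
  have h1 : interior (E n) ∈ 𝓝 x := isOpen_interior.mem_nhds hx
  rw [nhds_subtype_eq_comap, Filter.mem_comap] at h1
  obtain ⟨U, hU, hUE⟩ := h1
  obtain ⟨m, hm⟩ := nhds_cantor hU
  refine ⟨m, ?_⟩
  intro y hy hag j
  have h2 : (⟨y, hy⟩ : K) ∈ E n := interior_subset (hUE (hm y hag))
  have h3 : Subtype.val ⁻¹' {z | Agree j y z} ∈ 𝓝 (⟨y, hy⟩ : K) :=
    continuous_subtype_val.continuousAt.preimage_mem_nhds (agree_mem_nhds j y)
  obtain ⟨z, hz1, hz2⟩ := mem_closure_iff_nhds.mp h2 _ h3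
  exact ⟨z.1, hz2, z.2, hz1⟩

variable {I : Type} [LinearOrder I] [WellFoundedLT I] (W : WalkData I)

/-- the data extracted from a quasi-development at the sheet `α` -/
def Extract (G : ℕ → Set (Set (Surf W))) (α : I) (n m : ℕ) (s : Finset ℕ) : Prop :=
  ∃ x : ℕ → Bool, (∀ i, x i = true → i ∈ W.S α) ∧ (∀ i < m, (x i = true ↔ i ∈ s)) ∧
    (∀ i ∈ s, i < m) ∧
    (∃ V ∈ G n, (∀ y, Agree m x y → ch W α (iota y, 0) ∈ V)) ∧
    (∀ y : ℕ → Bool, (∀ i, y i = true → i ∈ W.S α) → Agree m x y → ∀ j,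
      ∃ z : ℕ → Bool, (∀ i, z i = true → i ∈ W.S α) ∧ Agree j y z ∧
        starOf (ch W α (iota z, 0)) (G n) ⊆ Set.range (ch W α))

lemma exists_extract (G : ℕ → Set (Set (Surf W))) (hG : ∀ n, ∀ V ∈ G n, IsOpen V)
    (hG2 : ∀ x : Surf W, ∀ U : Set (Surf W), IsOpen U → x ∈ U →
      ∃ n, x ∈ starOf x (G n) ∧ starOf x (G n) ⊆ U) (α : I) :
    ∃ n m s, Extract W G α n m s := by
  classical
  have hcont : Continuous (fun y : ℕ → Bool => ch W α (iota y, 0)) :=
    (continuous_ch W α).comp (continuous_iota.prodMk continuous_const)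
  let D : ℕ → Set (ℕ → Bool) := fun n => {x | ch W α (iota x, 0) ∈ starOf (ch W α (iota x, 0)) (G n)
    ∧ starOf (ch W α (iota x, 0)) (G n) ⊆ Set.range (ch W α)}
  obtain ⟨n, x1, hx1, m1, hm1⟩ := baire_cantor (W.S α) D (by
    intro x _
    exact hG2 (ch W α (iota x, 0)) (Set.range (ch W α)) (isOpen_range_ch W α) ⟨_, rfl⟩)
  obtain ⟨x0, hx0D, hx0, hx01⟩ := hm1 x1 hx1 (fun i _ => rfl) m1
  obtain ⟨V, ⟨hVG, hxV⟩, _⟩ := hx0D.1
  have hVo : IsOpen V := hG n V hVG
  obtain ⟨m2, hm2⟩ := nhds_cantor (x := x0) ((hVo.preimage hcont).mem_nhds hxV)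
  refine ⟨n, max m1 m2, (Finset.range (max m1 m2)).filter (fun i => x0 i = true), x0, hx0,
    ?_, ?_, ⟨V, hVG, ?_⟩, ?_⟩
  · intro i hi
    rw [Finset.mem_filter, Finset.mem_range]
    exact ⟨fun h => ⟨hi, h⟩, fun h => h.2⟩
  · intro i hi
    exact Finset.mem_range.mp (Finset.mem_filter.mp hi).1
  · intro y hy
    exact hm2 y (fun i hi => hy i (hi.trans_le (le_max_right _ _)))
  · intro y hy hag j
    obtain ⟨z, hzD, hz, hag2⟩ := hm1 y hy (fun i hi => by
      rw [hx01 i hi]; exact hag i (hi.trans_le (le_max_left _ _))) j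
    exact ⟨z, hz, hag2, hzD.2⟩

/-- the contradiction for two sheets with the same extracted data -/
lemma extract_contra (G : ℕ → Set (Set (Surf W))) {α β : I} (hβ : β < α) {n m : ℕ}
    {s : Finset ℕ} (hα : Extract W G α n m s) (hβ2 : Extract W G β n m s)
    (hk : m ≤ W.k α β) : False := by
  classical
  obtain ⟨x, hx, hxs, hsm, ⟨V, hVG, hV⟩, _⟩ := hα
  obtain ⟨x', hx', hxs', _, _, hdense⟩ := hβ2
  set k := W.k α β with hkdef
  -- the point `s ∪ {k}`
  let y0 : ℕ → Bool := fun i => decide (i ∈ s ∨ i = k)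
  have hsα : ∀ i ∈ s, i ∈ W.S α := fun i hi => hx i ((hxs i (hsm i hi)).mpr hi)
  have hsβ : ∀ i ∈ s, i ∈ W.S β := fun i hi => hx' i ((hxs' i (hsm i hi)).mpr hi)
  have hy0 : ∀ i, y0 i = true → i ∈ W.S β := by
    intro i hi
    have : i ∈ s ∨ i = k := by simpa [y0] using hi
    rcases this with h | h
    · exact hsβ i h
    · rw [h]; exact W.k_mem β α hβ
  have hag0 : Agree m x' y0 := by
    intro i hi
    have hik : i ≠ k := by omega
    rw [Bool.eq_iff_iff, hxs' i hi]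
    simp [y0, hik]
  obtain ⟨y, hy, hyag, hstar⟩ := hdense y0 hy0 hag0 (k + 1)
  have hydig : ∀ i < k + 1, (y i = true ↔ (i ∈ s ∨ i = k)) := by
    intro i hi
    rw [← hyag i hi]
    simp [y0]
  have hyk : y k = true := (hydig k (Nat.lt_succ_self _)).mpr (Or.inr rfl)
  have hylt : ∀ i < k, y i = true → i ∈ W.S α ∧ i ∈ W.S β := by
    intro i hi h
    rcases (hydig i (Nat.lt_succ_of_lt hi)).mp h with h1 | h1
    · exact ⟨hsα i h1, hsβ i h1⟩
    · omega
  have hch : ch W α (iota y, 0) = ch W β (iota y, 0) := ch_iota W hβ hyk hylt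
  have hagx : Agree m x y := by
    intro i hi
    rw [Bool.eq_iff_iff, hxs i hi, hydig i (by omega)]
    constructor
    · exact Or.inl
    · rintro (h | h)
      · exact h
      · omega
  have hyV : ch W β (iota y, 0) ∈ V := by
    rw [← hch]; exact hV y hagx
  have hVsub : V ⊆ Set.range (ch W β) := by
    refine Set.Subset.trans ?_ hstar
    exact Set.subset_sUnion_of_mem ⟨hVG, hyV⟩
  have hxV : ch W α (iota x, 0) ∈ V := hV x (fun i _ => rfl)
  obtain ⟨⟨r, t⟩, hrt⟩ := hVsub hxV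
  obtain ⟨h1, _, _⟩ := ch_eq W hrt
  rw [e_of_not (no_stp_iota W hx)] at h1
  have h2 := e_le W β r
  rw [h1] at h2
  exact absurd h2 (not_le.mpr hβ)

omit [WellFoundedLT I] in
/-- an uncountable set has an element with infinitely many predecessors in the set -/
lemma exists_infinite_pred {A : Set I} (hA : ¬ A.Countable) :
    ∃ α ∈ A, {β | β ∈ A ∧ β < α}.Infinite := by
  by_contra hcon
  push Not at hcon
  apply hA
  have hfin : ∀ α ∈ A, {β | β ∈ A ∧ β < α}.Finite := fun α hα => by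
    simpa using hcon α hα
  have hinj : Set.InjOn (fun α => {β | β ∈ A ∧ β < α}.ncard) A := by
    intro α hα β hβ h
    by_contra hne
    have key : ∀ a ∈ A, ∀ b ∈ A, a < b →
        {c | c ∈ A ∧ c < a}.ncard < {c | c ∈ A ∧ c < b}.ncard := by
      intro a ha b hb hab
      refine Set.ncard_lt_ncard ?_ (hfin b hb)
      refine ⟨fun c hc => ⟨hc.1, hc.2.trans hab⟩, ?_⟩
      intro hsub
      exact lt_irrefl a (hsub ⟨ha, hab⟩).2
    rcases lt_or_gt_of_ne hne with h1 | h1
    · have := key α hα β hβ h1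
      simp only at h
      omega
    · have := key β hβ α hα h1
      simp only at h
      omega
  exact Set.MapsTo.countable_of_injOn (Set.mapsTo_univ _ _) hinj (Set.countable_univ)

theorem not_quasiDevelopable [Uncountable I] : ¬ QuasiDevelopable (Surf W) := by
  rintro ⟨G, hG, hG2⟩
  have hex := exists_extract W G hG hG2
  choose n m s hnms using hex
  let f : I → ℕ × ℕ × Finset ℕ := fun α => (n α, m α, s α)
  obtain ⟨c, hc⟩ : ∃ c, ¬ (f ⁻¹' {c}).Countable := by
    by_contra hcon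
    push Not at hcon
    have h1 : (Set.univ : Set I) = ⋃ c, f ⁻¹' {c} := by
      ext x; simp
    have h2 : (Set.univ : Set I).Countable := by
      rw [h1]; exact Set.countable_iUnion hcon
    exact Set.not_countable_univ h2
  obtain ⟨α, hα, hinf⟩ := exists_infinite_pred hc
  obtain ⟨n0, m0, s0⟩ := c
  have hfα : f α = (n0, m0, s0) := hα
  have h3 : ∃ β, (f β = (n0, m0, s0) ∧ β < α) ∧ m0 ≤ W.k α β := by
    by_contra hcon
    push Not at hcon
    apply hinf
    refine Set.Finite.of_injOn (f := W.k α) (t := Set.Iio m0) ?_ ?_ (Set.finite_Iio m0)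
    · intro β hβ
      exact hcon β ⟨hβ.1, hβ.2⟩
    · intro a ha b hb h
      exact W.k_inj a b α ha.2 hb.2 h
  obtain ⟨β, ⟨hfβ, hβ⟩, hk⟩ := h3
  have e1 := hnms α
  have e2 := hnms β
  have a1 : n α = n0 := congrArg (fun p => p.1) hfα
  have a2 : m α = m0 := congrArg (fun p => p.2.1) hfα
  have a3 : s α = s0 := congrArg (fun p => p.2.2) hfα
  have b1 : n β = n0 := congrArg (fun p => p.1) hfβ
  have b2 : m β = m0 := congrArg (fun p => p.2.1) hfβ
  have b3 : s β = s0 := congrArg (fun p => p.2.2) hfβ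
  rw [a1, a2, a3] at e1
  rw [b1, b2, b3] at e2
  exact extract_contra W G hβ e1 e2 hk

end Pool.Agent.Lib.MP_1abf27_gt
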