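import Mathlib

/-!
# The expanding map on the line and the Cantor set

`zz n r` is the `n`-th iterate of `r ↦ 16 r - 8 sgn r`; the digits of `r` are the signs of the
iterates. `iota x` is the point of the Cantor set with the digits `x`.
-/

namespace Pool.Agent.Lib.MP_1abf27_gt

open Filter Topology

/-- sign with value `1` at zero -/
noncomputable def sg (y : ℝ) : ℝ := if 0 ≤ y then 1 else -1

/-- iterates of the expanding map -/
noncomputable def zz : ℕ → ℝ → ℝ
  | 0, r => r
  | n + 1, r => 16 * zz n r - 8 * sg (zz n r)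

lemma zz_zero (r : ℝ) : zz 0 r = r := rfl

lemma zz_succ (n : ℕ) (r : ℝ) : zz (n + 1) r = 16 * zz n r - 8 * sg (zz n r) := rfl

lemma abs_step (y : ℝ) : |16 * y - 8 * sg y| = |16 * |y| - 8| := by
  unfold sg
  split_ifs with h
  · rw [abs_of_nonneg h]; ring_nf
  · have h' : y < 0 := lt_of_not_ge h
    rw [abs_of_neg h']
    have : (16 * y - 8 * (-1) : ℝ) = -(16 * (-y) - 8) := by ring
    rw [this, abs_neg]

lemma abs_zz_succ (n : ℕ) (r : ℝ) : |zz (n + 1) r| = |16 * |zz n r| - 8| := by
  rw [zz_succ, abs_step]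

lemma continuous_abs_zz (n : ℕ) : Continuous (fun r => |zz n r|) := by
  induction n with
  | zero => simpa [zz_zero] using continuous_abs
  | succ n ih =>
    have : (fun r => |zz (n + 1) r|) = fun r => |16 * |zz n r| - 8| := by
      funext r; exact abs_zz_succ n r
    rw [this]
    fun_prop

lemma abs_zz_mono {n : ℕ} {r : ℝ} (h : 1 ≤ |zz n r|) : 8 ≤ |zz (n + 1) r| := by
  rw [abs_zz_succ]
  have : 8 ≤ 16 * |zz n r| - 8 := by linarith
  exact this.trans (le_abs_self _)

lemma abs_zz_big {n : ℕ} {r : ℝ} (h : 1 ≤ |zz n r|) : ∀ m, n < m → 8 ≤ |zz m r| := by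
  intro m hm
  induction m with
  | zero => exact absurd hm (Nat.not_lt_zero _)
  | succ m ih =>
    rcases Nat.lt_succ_iff_lt_or_eq.mp hm with h1 | h1
    · exact abs_zz_mono (le_trans (by norm_num) (ih h1))
    · subst h1; exact abs_zz_mono h

lemma abs_zz_lt_one {m : ℕ} {r : ℝ} (h : |zz m r| < 2) {i : ℕ} (hi : i < m) : |zz i r| < 1 := by
  by_contra hc
  have := abs_zz_big (not_lt.mp hc) m hi
  linarith

lemma zz_ne_zero {m : ℕ} {r : ℝ} (h : |zz m r| < 2) {i : ℕ} (hi : i < m) : zz i r ≠ 0 := by
  intro h0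
  have h1 : |zz (i + 1) r| = 8 := by
    rw [abs_zz_succ, h0]; norm_num
  rcases Nat.lt_or_ge (i + 1) m with h2 | h2
  · have := abs_zz_big (n := i + 1) (by rw [h1]; norm_num) m h2
    linarith
  · have : m = i + 1 := by omega
    subst this
    rw [h1] at h
    linarith

lemma continuousAt_sg {y : ℝ} (h : y ≠ 0) : ContinuousAt sg y := by
  rcases lt_or_gt_of_ne h with h | h
  · have : sg =ᶠ[𝓝 y] fun _ => (-1 : ℝ) := by
      filter_upwards [Iio_mem_nhds h] with x hx
      simp only [sg]
      rw [if_neg (not_le.mpr hx)]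
    exact (continuousAt_const).congr this.symm
  · have : sg =ᶠ[𝓝 y] fun _ => (1 : ℝ) := by
      filter_upwards [Ioi_mem_nhds h] with x hx
      simp only [sg]
      rw [if_pos (le_of_lt hx)]
    exact (continuousAt_const).congr this.symm

lemma continuousAt_zz {m : ℕ} {r : ℝ} (h : ∀ i < m, zz i r ≠ 0) : ContinuousAt (zz m) r := by
  induction m with
  | zero => exact continuousAt_id
  | succ m ih =>
    have ih' := ih (fun i hi => h i (Nat.lt_succ_of_lt hi))
    have h2 : ContinuousAt (fun r => sg (zz m r)) r :=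
      ContinuousAt.comp (g := sg) (f := zz m) (continuousAt_sg (h m (Nat.lt_succ_self m))) ih'
    have : (zz (m + 1)) = fun r => 16 * zz m r - 8 * sg (zz m r) := by
      funext r; exact zz_succ m r
    rw [this]
    exact (ih'.const_mul 16).sub (h2.const_mul 8)

/-- the digits below `m` are locally constant where `|zz m| < 2` -/
lemma eventually_digits {m : ℕ} {r0 : ℝ} (h : |zz m r0| < 2) :
    ∀ᶠ r in 𝓝 r0, ∀ i < m, (0 ≤ zz i r ↔ 0 ≤ zz i r0) := by
  have key : ∀ i ∈ Finset.range m, ∀ᶠ r in 𝓝 r0, (0 ≤ zz i r ↔ 0 ≤ zz i r0) := by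
    intro i hi
    have hi' : i < m := Finset.mem_range.mp hi
    have hc : ContinuousAt (zz i) r0 :=
      continuousAt_zz (fun j hj => zz_ne_zero h (hj.trans hi'))
    have hne := zz_ne_zero h hi'
    rcases lt_or_gt_of_ne hne with h1 | h1
    · filter_upwards [hc.eventually (Iio_mem_nhds h1)] with r hr
      have hr' : zz i r < 0 := hr
      constructor
      · intro h3; linarith
      · intro h3; linarith
    · filter_upwards [hc.eventually (Ioi_mem_nhds h1)] with r hr
      have hr' : 0 < zz i r := hr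
      exact ⟨fun _ => h1.le, fun _ => hr'.le⟩
  have := (Finset.eventually_all (Finset.range m)).mpr key
  filter_upwards [this] with r hr i hi
  exact hr i (Finset.mem_range.mpr hi)

/-- sign of a boolean -/
noncomputable def sb (b : Bool) : ℝ := if b then 1 else -1

lemma abs_sb (b : Bool) : |sb b| = 1 := by
  cases b <;> simp [sb]

/-- the point of the Cantor set with digits `x` -/
noncomputable def iota (x : ℕ → Bool) : ℝ := ∑' n, sb (x n) * ((1 / 2) * (1 / 16 : ℝ) ^ n)

lemma summable_geo : Summable (fun n : ℕ => (1 / 2) * (1 / 16 : ℝ) ^ n) :=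
  (summable_geometric_of_lt_one (by norm_num) (by norm_num)).mul_left _

lemma norm_term (x : ℕ → Bool) (n : ℕ) :
    ‖sb (x n) * ((1 / 2) * (1 / 16 : ℝ) ^ n)‖ ≤ (1 / 2) * (1 / 16 : ℝ) ^ n := by
  rw [Real.norm_eq_abs, abs_mul, abs_sb, one_mul, abs_of_nonneg (by positivity)]

lemma summable_iota (x : ℕ → Bool) :
    Summable (fun n => sb (x n) * ((1 / 2) * (1 / 16 : ℝ) ^ n)) :=
  Summable.of_norm_bounded summable_geo (norm_term x)

lemma abs_iota_le (x : ℕ → Bool) : |iota x| ≤ 8 / 15 := by
  have h := tsum_of_norm_bounded (f := fun n => sb (x n) * ((1 / 2) * (1 / 16 : ℝ) ^ n))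
    (g := fun n => (1 / 2) * (1 / 16 : ℝ) ^ n) (a := 8 / 15)
    (by
      have h1 := (hasSum_geometric_of_lt_one (r := (1 / 16 : ℝ)) (by norm_num)
        (by norm_num)).mul_left (1 / 2)
      have h2 : (1 / 2 : ℝ) * (1 - 1 / 16)⁻¹ = 8 / 15 := by norm_num
      rw [h2] at h1
      exact h1) (norm_term x)
  simpa [iota, Real.norm_eq_abs] using h

lemma iota_succ (x : ℕ → Bool) :
    iota x = sb (x 0) / 2 + (1 / 16) * iota (fun n => x (n + 1)) := by
  unfold iota
  rw [(summable_iota x).tsum_eq_zero_add]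
  congr 1
  · simp; ring
  · rw [← tsum_mul_left]
    congr 1
    funext n
    rw [pow_succ]; ring

lemma sg_iota (x : ℕ → Bool) : sg (iota x) = sb (x 0) := by
  have h := abs_iota_le (fun n => x (n + 1))
  have h1 := iota_succ x
  rw [abs_le] at h
  cases hx : x 0
  · have : iota x < 0 := by
      rw [h1, hx]; simp only [sb]; norm_num; linarith [h.1, h.2]
    simp only [sg, sb]
    rw [if_neg (not_le.mpr this)]; simp
  · have : 0 ≤ iota x := by
      rw [h1, hx]; simp only [sb]; norm_num; linarith [h.1, h.2]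
    simp only [sg, sb]
    rw [if_pos this]; simp

lemma zz_iota (n : ℕ) : ∀ x : ℕ → Bool, zz n (iota x) = iota (fun i => x (i + n)) := by
  induction n with
  | zero => intro x; simp [zz_zero]
  | succ n ih =>
    intro x
    rw [zz_succ, ih x, sg_iota]
    have h1 := iota_succ (fun i => x (i + n))
    simp only [zero_add] at h1 ⊢
    rw [h1]
    have : (fun i => x (i + (n + 1))) = (fun i => x (i + 1 + n)) := by
      funext i; congr 1; ring
    rw [this]
    ring

lemma zz_iota_nonneg (n : ℕ) (x : ℕ → Bool) : 0 ≤ zz n (iota x) ↔ x n = true := by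
  have h := sg_iota (fun i => x (i + n))
  rw [zz_iota]
  simp only [zero_add] at h
  constructor
  · intro h1
    rw [sg, if_pos h1] at h
    cases hx : x n
    · rw [hx] at h; simp [sb] at h; norm_num at h
    · rfl
  · intro h1
    by_contra h2
    rw [sg, if_neg h2, h1] at h
    simp [sb] at h; norm_num at h

lemma abs_zz_iota (n : ℕ) (x : ℕ → Bool) : |zz n (iota x)| ≤ 8 / 15 := by
  rw [zz_iota]; exact abs_iota_le _

lemma continuous_iota : Continuous iota := by
  unfold iota
  refine continuous_tsum (u := fun n => (1 / 2) * (1 / 16 : ℝ) ^ n) ?_ summable_geo ?_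
  · intro n
    have h1 : Continuous (fun x : ℕ → Bool => sb (x n)) :=
      (continuous_of_discreteTopology (f := sb)).comp (continuous_apply n)
    exact h1.mul continuous_const
  · intro n x
    exact norm_term x n

/-- the gluing function: zero for `a ≤ 1`, and it tends to infinity as `a` tends to `l` -/
noncomputable def psi (l a : ℝ) : ℝ := max 0 (a - 1) / (l - a)

lemma psi_nonneg {l a : ℝ} (h : a < l) : 0 ≤ psi l a :=
  div_nonneg (le_max_left _ _) (by linarith)

lemma psi_zero {l a : ℝ} (h : a ≤ 1) : psi l a = 0 := by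
  unfold psi
  rw [max_eq_left (by linarith)]; simp

lemma continuousAt_psi {l a : ℝ} (h : a < l) : ContinuousAt (psi l) a := by
  unfold psi
  refine ContinuousAt.div ?_ ?_ (by linarith)
  · fun_prop
  · fun_prop

lemma psi_large {l : ℝ} (hl : 1 < l) (N : ℝ) : ∀ᶠ a in 𝓝 l, a < l → N < psi l a := by
  have h1 : (0 : ℝ) < (l - 1) / 2 := by linarith
  set N' := max N 0 + 1 with hN'
  have hN'pos : 0 < N' := by
    have := le_max_right N 0
    linarith
  set e := min ((l - 1) / 2) ((l - 1) / 2 / N') with he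
  have hepos : 0 < e := lt_min h1 (div_pos h1 hN'pos)
  filter_upwards [Ioi_mem_nhds (show l - e < l by linarith)] with a ha hal
  have ha' : l - e < a := ha
  have h2 : l - a < e := by linarith
  have h3 : l - a < (l - 1) / 2 := h2.trans_le (min_le_left _ _)
  have h4 : l - a < (l - 1) / 2 / N' := h2.trans_le (min_le_right _ _)
  have h5 : (l - 1) / 2 < a - 1 := by linarith
  have hpos : 0 < l - a := by linarith
  unfold psi
  rw [max_eq_right (by linarith), lt_div_iff₀ hpos]
  have h6 : (l - a) * N' < (l - 1) / 2 := by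
    rwa [lt_div_iff₀ hN'pos] at h4
  have h7 : N ≤ N' := by
    have := le_max_left N 0
    linarith
  nlinarith

end Pool.Agent.Lib.MP_1abf27_gt
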