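import Pool.Agent.Lib.MP_1abf27_gt.Walk

/-!
# The surface

The surface `Surf W` is glued from the planes `ℝ × ℝ`, one for each `α : I`, by the open
embeddings `ch W α`.
-/

namespace Pool.Agent.Lib.MP_1abf27_gt

open Filter Topology

variable {I : Type} [LinearOrder I] [WellFoundedLT I] (W : WalkData I)

/-- the points of the surface -/
def Surf : Type := {p : I × ℝ × ℝ // ∀ β, ¬ Stp W p.1 β p.2.1}

/-- the sheet `α` -/
noncomputable def ch (α : I) (p : ℝ × ℝ) : Surf W :=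
  ⟨(e W α p.1, p.1, p.2 + off W α p.1), e_end W α p.1⟩

/-- the topology of the surface -/
noncomputable instance surfTop : TopologicalSpace (Surf W) :=
  ⨆ α, TopologicalSpace.coinduced (ch W α) inferInstance

lemma isOpen_surf {U : Set (Surf W)} : IsOpen U ↔ ∀ α, IsOpen (ch W α ⁻¹' U) := by
  unfold surfTop
  rw [isOpen_iSup_iff]
  exact Iff.rfl

lemma continuous_ch (α : I) : Continuous (ch W α) :=
  continuous_def.mpr (fun _ hU => (isOpen_surf W).mp hU α)

lemma ch_eq {α β : I} {r s t u : ℝ} (h : ch W α (r, t) = ch W β (s, u)) :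
    e W α r = e W β s ∧ r = s ∧ t + off W α r = u + off W β s := by
  have h0 := congrArg Subtype.val h
  exact ⟨congrArg (fun p => p.1) h0, congrArg (fun p => p.2.1) h0, congrArg (fun p => p.2.2) h0⟩

lemma ch_eq_of {α β : I} {r t u : ℝ} (h1 : e W α r = e W β r)
    (h2 : t + off W α r = u + off W β r) : ch W α (r, t) = ch W β (r, u) :=
  Subtype.ext (Prod.ext h1 (Prod.ext rfl h2))

lemma ch_injective (α : I) : Function.Injective (ch W α) := by
  rintro ⟨r, t⟩ ⟨s, u⟩ h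
  obtain ⟨_, h2, h3⟩ := ch_eq W h
  subst h2
  have : t = u := by linarith
  rw [this]

lemma isOpenMap_ch (α : I) : IsOpenMap (ch W α) := by
  intro V hV
  rw [isOpen_surf]
  intro β
  rw [isOpen_iff_mem_nhds]
  rintro ⟨r0, t0⟩ ⟨⟨r1, t1⟩, hV1, heq⟩
  obtain ⟨h1, h2, h3⟩ := ch_eq W heq
  subst h2
  obtain ⟨c, hc, hev⟩ := local_compare W r1 β α h1.symm
  have h4 := hev.self_of_nhds
  have hg : ContinuousAt (fun p : ℝ × ℝ => (p.1, p.2 + c p.1)) (r1, t0) := by
    refine continuousAt_fst.prodMk (continuousAt_snd.add ?_)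
    exact ContinuousAt.comp (g := c) (f := fun p : ℝ × ℝ => p.1) hc continuousAt_fst
  have hval : ((r1, t0 + c r1) : ℝ × ℝ) = (r1, t1) := by
    have : t0 + c r1 = t1 := by linarith [h4.2]
    rw [this]
  have hmem : V ∈ 𝓝 ((r1, t0 + c r1) : ℝ × ℝ) := by
    rw [hval]; exact hV.mem_nhds hV1
  have h5 : ∀ᶠ p : ℝ × ℝ in 𝓝 (r1, t0), (p.1, p.2 + c p.1) ∈ V := hg.eventually hmem
  have h6 : ∀ᶠ p : ℝ × ℝ in 𝓝 (r1, t0), e W β p.1 = e W α p.1 ∧
      off W β p.1 = off W α p.1 + c p.1 :=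
    (continuousAt_fst (p := ((r1, t0) : ℝ × ℝ))).eventually hev
  filter_upwards [h5, h6] with p hp1 hp2
  refine ⟨(p.1, p.2 + c p.1), hp1, ?_⟩
  have : ch W β p = ch W β (p.1, p.2) := rfl
  rw [this]
  exact ch_eq_of W hp2.1.symm (by rw [hp2.2]; ring)

lemma isOpenEmbedding_ch (α : I) : IsOpenEmbedding (ch W α) :=
  IsOpenEmbedding.of_continuous_injective_isOpenMap (continuous_ch W α) (ch_injective W α)
    (isOpenMap_ch W α)

lemma isOpen_range_ch (α : I) : IsOpen (Set.range (ch W α)) :=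
  (isOpenEmbedding_ch W α).isOpen_range

lemma ch_self (p : Surf W) : ch W p.1.1 (p.1.2.1, p.1.2.2) = p := by
  refine Subtype.ext (Prod.ext ?_ (Prod.ext rfl ?_))
  · exact e_of_not p.2
  · show p.1.2.2 + off W p.1.1 p.1.2.1 = p.1.2.2
    rw [off_of_not p.2, add_zero]

lemma iUnion_range_ch : (⋃ α, Set.range (ch W α)) = Set.univ := by
  rw [Set.eq_univ_iff_forall]
  intro p
  exact Set.mem_iUnion.mpr ⟨p.1.1, _, ch_self W p⟩

/-- the projection to the line -/
def proj (p : Surf W) : ℝ := p.1.2.1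

lemma continuous_proj : Continuous (proj W) := by
  rw [continuous_def]
  intro U hU
  rw [isOpen_surf]
  intro α
  exact hU.preimage continuous_fst

lemma separate_sheets {ε δ : I} (hlt : ε < δ) {r0 : ℝ} (hδ : ∀ b, ¬ Stp W δ b r0)
    (hε : ∀ b, ¬ Stp W ε b r0) (t t' : ℝ) :
    ∃ U V : Set (Surf W), IsOpen U ∧ IsOpen V ∧ ch W δ (r0, t) ∈ U ∧ ch W ε (r0, t') ∈ V ∧
      Disjoint U V := by
  have hsep := separation W hlt hδ hε (|t - t'| + 2)
  obtain ⟨B, hB, hBo, hB0⟩ := eventually_nhds_iff.mp hsep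
  refine ⟨ch W δ '' (B ×ˢ Set.Ioo (t - 1) (t + 1)), ch W ε '' (B ×ˢ Set.Ioo (t' - 1) (t' + 1)),
    isOpenMap_ch W δ _ (hBo.prod isOpen_Ioo), isOpenMap_ch W ε _ (hBo.prod isOpen_Ioo),
    ⟨_, ⟨hB0, by simp⟩, rfl⟩, ⟨_, ⟨hB0, by simp⟩, rfl⟩, ?_⟩
  rw [Set.disjoint_left]
  rintro p ⟨⟨r, s⟩, ⟨hr, hs⟩, rfl⟩ ⟨⟨r', s'⟩, ⟨hr', hs'⟩, h⟩
  obtain ⟨h1, h2, h3⟩ := ch_eq W h
  subst h2
  have h4 := hB r' hr h1.symm
  have h5 : off W δ r' - off W ε r' = s' - s := by linarith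
  rw [h5] at h4
  have hs1 : t - 1 < s := hs.1
  have hs2 : s < t + 1 := hs.2
  have hs3 : t' - 1 < s' := hs'.1
  have hs4 : s' < t' + 1 := hs'.2
  have h6 : |s' - s| < |t - t'| + 2 := by
    rw [abs_lt]
    have h7 := neg_abs_le (t - t')
    have h8 := le_abs_self (t - t')
    constructor <;> linarith
  linarith

instance t2Surf : T2Space (Surf W) := by
  constructor
  intro p q hpq
  by_cases hπ : proj W p = proj W q
  · have hp := ch_self W p
    have hq := ch_self W q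
    have hr : q.1.2.1 = p.1.2.1 := hπ.symm
    rcases lt_trichotomy p.1.1 q.1.1 with h | h | h
    · obtain ⟨U, V, hU, hV, h1, h2, h3⟩ := separate_sheets W h (r0 := q.1.2.1) q.2
        (by rw [hr]; exact p.2) q.1.2.2 p.1.2.2
      rw [hq] at h1
      rw [hr, hp] at h2
      exact ⟨V, U, hV, hU, h2, h1, h3.symm⟩
    · -- same sheet
      have hne : ((p.1.2.1, p.1.2.2) : ℝ × ℝ) ≠ (q.1.2.1, q.1.2.2) := by
        intro h2
        apply hpq
        rw [← hp, ← hq, h, h2]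
      obtain ⟨U, V, hU, hV, h1, h2, h3⟩ := t2_separation hne
      refine ⟨ch W p.1.1 '' U, ch W p.1.1 '' V, isOpenMap_ch W _ _ hU, isOpenMap_ch W _ _ hV,
        ⟨_, h1, hp⟩, ⟨_, h2, ?_⟩, ?_⟩
      · rw [h, hq]
      · exact (Set.disjoint_image_iff (ch_injective W _)).mpr h3
    · obtain ⟨U, V, hU, hV, h1, h2, h3⟩ := separate_sheets W h (r0 := p.1.2.1) p.2
        (by rw [← hr]; exact q.2) p.1.2.2 q.1.2.2
      rw [hp] at h1
      rw [← hr, hq] at h2
      exact ⟨U, V, hU, hV, h1, h2, h3⟩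
  · obtain ⟨U, V, hU, hV, h1, h2, h3⟩ := t2_separation hπ
    exact ⟨proj W ⁻¹' U, proj W ⁻¹' V, hU.preimage (continuous_proj W),
      hV.preimage (continuous_proj W), h1, h2, h3.preimage _⟩

/-- the open neighbourhoods of the diagonal -/
def diagNhd (n : ℕ) : Set (Surf W × Surf W) :=
  ⋃ α : I, ⋃ z : ℝ × ℝ,
    (ch W α '' Metric.ball z (1 / ((n : ℝ) + 1))) ×ˢ (ch W α '' Metric.ball z (1 / ((n : ℝ) + 1)))

lemma isOpen_diagNhd (n : ℕ) : IsOpen (diagNhd W n) := by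
  unfold diagNhd
  refine isOpen_iUnion (fun α => isOpen_iUnion (fun z => ?_))
  exact (isOpenMap_ch W α _ Metric.isOpen_ball).prod (isOpenMap_ch W α _ Metric.isOpen_ball)

lemma dist_of_mem_diagNhd {n : ℕ} {p q : Surf W} (h : (p, q) ∈ diagNhd W n) :
    |p.1.2.1 - q.1.2.1| < 2 / ((n : ℝ) + 1) ∧
    (p.1.2.1 = q.1.2.1 → p.1.1 = q.1.1 ∧ |p.1.2.2 - q.1.2.2| < 2 / ((n : ℝ) + 1)) := by
  unfold diagNhd at h
  rw [Set.mem_iUnion] at h
  obtain ⟨α, h⟩ := h
  rw [Set.mem_iUnion] at h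
  obtain ⟨z, ⟨⟨r, s⟩, hp, rfl⟩, ⟨⟨r', s'⟩, hq, rfl⟩⟩ := h
  have hd : dist ((r, s) : ℝ × ℝ) (r', s') < 2 / ((n : ℝ) + 1) := by
    have h1 := dist_triangle_right ((r, s) : ℝ × ℝ) (r', s') z
    have h2 : dist ((r, s) : ℝ × ℝ) z < 1 / ((n : ℝ) + 1) := hp
    have h3 : dist ((r', s') : ℝ × ℝ) z < 1 / ((n : ℝ) + 1) := hq
    have h4 : 2 / ((n : ℝ) + 1) = 1 / ((n : ℝ) + 1) + 1 / ((n : ℝ) + 1) := by ring
    rw [h4]
    linarith
  rw [Prod.dist_eq, max_lt_iff] at hd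
  obtain ⟨h1, h2⟩ := hd
  rw [Real.dist_eq] at h1 h2
  refine ⟨h1, ?_⟩
  intro hrr
  have hrr' : r = r' := hrr
  subst hrr'
  refine ⟨rfl, ?_⟩
  have : (s + off W α r) - (s' + off W α r) = s - s' := by ring
  show |(s + off W α r) - (s' + off W α r)| < _
  rw [this]
  exact h2

lemma eq_zero_of_small {x : ℝ} (h : ∀ n : ℕ, |x| < 2 / ((n : ℝ) + 1)) : x = 0 := by
  by_contra hne
  have hpos : 0 < |x| := abs_pos.mpr hne
  obtain ⟨n, hn⟩ := exists_nat_gt (2 / |x|)
  have h1 := h n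
  have h2 : (0 : ℝ) < (n : ℝ) + 1 := by positivity
  rw [lt_div_iff₀ h2] at h1
  rw [div_lt_iff₀ hpos] at hn
  nlinarith

lemma isGδ_diagonal : IsGδ (Set.diagonal (Surf W)) := by
  have : Set.diagonal (Surf W) = ⋂ n, diagNhd W n := by
    apply Set.Subset.antisymm
    · rintro ⟨p, q⟩ h
      have hpq : p = q := h
      subst hpq
      rw [Set.mem_iInter]
      intro n
      unfold diagNhd
      refine Set.mem_iUnion.mpr ⟨p.1.1, Set.mem_iUnion.mpr ⟨(p.1.2.1, p.1.2.2), ?_⟩⟩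
      have hb : ((p.1.2.1, p.1.2.2) : ℝ × ℝ) ∈
          Metric.ball ((p.1.2.1, p.1.2.2) : ℝ × ℝ) (1 / ((n : ℝ) + 1)) :=
        Metric.mem_ball_self (by positivity)
      exact ⟨⟨_, hb, ch_self W p⟩, ⟨_, hb, ch_self W p⟩⟩
    · rintro ⟨p, q⟩ h
      rw [Set.mem_iInter] at h
      have h1 : p.1.2.1 - q.1.2.1 = 0 :=
        eq_zero_of_small (fun n => (dist_of_mem_diagNhd W (h n)).1)
      have h2 : p.1.2.1 = q.1.2.1 := by linarith
      have h3 : p.1.2.2 - q.1.2.2 = 0 :=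
        eq_zero_of_small (fun n => ((dist_of_mem_diagNhd W (h n)).2 h2).2)
      have h4 : p.1.2.2 = q.1.2.2 := by linarith
      have h5 : p.1.1 = q.1.1 := ((dist_of_mem_diagNhd W (h 0)).2 h2).1
      exact Subtype.ext (Prod.ext h5 (Prod.ext h2 h4))
  rw [this]
  exact IsGδ.iInter_of_isOpen (isOpen_diagNhd W)

omit [WellFoundedLT I] in
/-- the sheets `α` and `β` meet over a point of the Cantor set with suitable digits -/
lemma stp_iota {α β : I} (hβ : β < α) {y : ℕ → Bool} (h1 : y (W.k α β) = true)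
    (h2 : ∀ i < W.k α β, y i = true → i ∈ W.S α ∧ i ∈ W.S β) : Stp W α β (iota y) := by
  refine ⟨hβ, (zz_iota_nonneg _ _).mpr h1, ?_, ?_⟩
  · intro i hi h0
    exact h2 i hi ((zz_iota_nonneg _ _).mp h0)
  · have h3 := abs_zz_iota (W.k α β + 1) y
    have h4 := W.lam_gt α
    have h5 : (8 / 15 : ℝ) < 1 := by norm_num
    linarith

lemma ch_iota {α β : I} (hβ : β < α) {y : ℕ → Bool} (h1 : y (W.k α β) = true)
    (h2 : ∀ i < W.k α β, y i = true → i ∈ W.S α ∧ i ∈ W.S β) :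
    ch W α (iota y, 0) = ch W β (iota y, 0) := by
  have hs := stp_iota W hβ h1 h2
  refine ch_eq_of W (e_of_stp hs) ?_
  rw [off_of_stp hs]
  have h3 := abs_zz_iota (W.k α β + 1) y
  have h5 : (8 / 15 : ℝ) ≤ 1 := by norm_num
  rw [psi_zero (h3.trans h5), add_zero]

omit [WellFoundedLT I] in
lemma no_stp_iota {α : I} {x : ℕ → Bool} (h : ∀ i, x i = true → i ∈ W.S α) :
    ∀ β, ¬ Stp W α β (iota x) := by
  intro β hβ
  exact W.k_not_mem β α hβ.1 (h _ ((zz_iota_nonneg _ _).mp hβ.2.1))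

lemma range_inter {α β : I} (hβ : β < α) :
    (Set.range (ch W α) ∩ Set.range (ch W β)).Nonempty := by
  classical
  have h := ch_iota W hβ (y := fun i => decide (i = W.k α β)) (by simp)
    (by
      intro i hi h
      have : i = W.k α β := by simpa using h
      omega)
  exact ⟨_, ⟨_, rfl⟩, ⟨_, h.symm⟩⟩

lemma connected_surf [Nonempty I] : ConnectedSpace (Surf W) := by
  have hpre : IsPreconnected (⋃ α, Set.range (ch W α)) := by
    refine IsPreconnected.iUnion_of_reflTransGen ?_ ?_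
    · intro α
      exact isPreconnected_range (continuous_ch W α)
    · intro α β
      rcases lt_trichotomy α β with h | h | h
      · refine Relation.ReflTransGen.single ?_
        rw [Set.inter_comm]
        exact range_inter W h
      · subst h; exact Relation.ReflTransGen.refl
      · exact Relation.ReflTransGen.single (range_inter W h)
  rw [iUnion_range_ch] at hpre
  have : Nonempty (Surf W) := ⟨ch W (Classical.arbitrary I) (0, 0)⟩
  exact { isPreconnected_univ := hpre, toNonempty := this }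

end Pool.Agent.Lib.MP_1abf27_gt
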