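import Pool.Agent.Lib.MP_1abf27_gt.Real
import Pool.Agent.Lib.MP_1abf27_gt.Comb

/-!
# Walks

`Stp W α β r` says that at the parameter `r` the sheet `α` is glued to the sheet `β < α`.  Every
sheet has at most one such `β`, so every sheet has an end sheet `e W α r` and a shift `off W α r`.
-/

namespace Pool.Agent.Lib.MP_1abf27_gt

open Filter Topology

variable {I : Type} [LinearOrder I] (W : WalkData I)

/-- the sheet `α` is glued to the sheet `β` at `r` -/
def Stp (α β : I) (r : ℝ) : Prop :=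
  β < α ∧ 0 ≤ zz (W.k α β) r ∧ (∀ i < W.k α β, 0 ≤ zz i r → i ∈ W.S α ∧ i ∈ W.S β) ∧
    |zz (W.k α β + 1) r| < W.lam α

variable {W}

lemma Stp.unique {α β γ : I} {r : ℝ} (h1 : Stp W α β r) (h2 : Stp W α γ r) : β = γ := by
  obtain ⟨a1, a2, a3, a4⟩ := h1
  obtain ⟨b1, b2, b3, b4⟩ := h2
  rcases lt_trichotomy (W.k α β) (W.k α γ) with h | h | h
  · exact absurd (b3 _ h a2).1 (W.k_not_mem β α a1)
  · exact W.k_inj β γ α a1 b1 h
  · exact absurd (a3 _ h b2).1 (W.k_not_mem γ α b1)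

lemma Stp.eventually {α β : I} {r0 : ℝ} (h : Stp W α β r0) : ∀ᶠ r in 𝓝 r0, Stp W α β r := by
  obtain ⟨a1, a2, a3, a4⟩ := h
  have h1 := eventually_digits (m := W.k α β + 1) (a4.trans (W.lam_lt α))
  have h2 : ∀ᶠ r in 𝓝 r0, |zz (W.k α β + 1) r| < W.lam α :=
    (continuous_abs_zz (W.k α β + 1)).continuousAt.eventually (Iio_mem_nhds a4)
  filter_upwards [h1, h2] with r hr1 hr2
  refine ⟨a1, (hr1 _ (Nat.lt_succ_self _)).mpr a2, ?_, hr2⟩
  intro i hi h0
  exact a3 i hi ((hr1 i (Nat.lt_succ_of_lt hi)).mp h0)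

variable (W) [WellFoundedLT I]

open Classical in
/-- one step of the walk -/
noncomputable def wstep (r : ℝ) (α : I) (f : (β : I) → β < α → I × ℝ) : I × ℝ :=
  if h : ∃ β, Stp W α β r then
    ((f (Classical.choose h) (Classical.choose_spec h).1).1,
      (f (Classical.choose h) (Classical.choose_spec h).1).2 +
        psi (W.lam α) |zz (W.k α (Classical.choose h) + 1) r|)
  else (α, 0)

/-- the end and the total shift of the walk -/
noncomputable def wlk (r : ℝ) : I → I × ℝ :=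
  (wellFounded_lt (α := I)).fix (wstep W r)

lemma wlk_eq (r : ℝ) (α : I) : wlk W r α = wstep W r α (fun β _ => wlk W r β) :=
  WellFounded.fix_eq _ _ _

/-- the end of the walk from `α` at `r` -/
noncomputable def e (α : I) (r : ℝ) : I := (wlk W r α).1

/-- the total shift of the walk from `α` at `r` -/
noncomputable def off (α : I) (r : ℝ) : ℝ := (wlk W r α).2

variable {W}

lemma wlk_of_stp {α β : I} {r : ℝ} (h : Stp W α β r) :
    wlk W r α = ((wlk W r β).1, (wlk W r β).2 + psi (W.lam α) |zz (W.k α β + 1) r|) := by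
  have hex : ∃ β, Stp W α β r := ⟨β, h⟩
  rw [wlk_eq]
  unfold wstep
  rw [dif_pos hex]
  have h2 : Classical.choose hex = β := (Classical.choose_spec hex).unique h
  dsimp only
  rw [h2]

lemma wlk_of_not {α : I} {r : ℝ} (h : ∀ β, ¬ Stp W α β r) : wlk W r α = (α, 0) := by
  have hex : ¬ ∃ β, Stp W α β r := fun ⟨β, hβ⟩ => h β hβ
  rw [wlk_eq]
  unfold wstep
  rw [dif_neg hex]

lemma e_of_stp {α β : I} {r : ℝ} (h : Stp W α β r) : e W α r = e W β r := by
  unfold e; rw [wlk_of_stp h]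

lemma off_of_stp {α β : I} {r : ℝ} (h : Stp W α β r) :
    off W α r = off W β r + psi (W.lam α) |zz (W.k α β + 1) r| := by
  unfold off; rw [wlk_of_stp h]

lemma e_of_not {α : I} {r : ℝ} (h : ∀ β, ¬ Stp W α β r) : e W α r = α := by
  unfold e; rw [wlk_of_not h]

lemma off_of_not {α : I} {r : ℝ} (h : ∀ β, ¬ Stp W α β r) : off W α r = 0 := by
  unfold off; rw [wlk_of_not h]

variable (W)

lemma walk_induction (r : ℝ) (P : I → Prop) (h0 : ∀ α, (∀ β, ¬ Stp W α β r) → P α)
    (h1 : ∀ α β, Stp W α β r → P β → P α) (α : I) : P α := by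
  induction α using (wellFounded_lt (α := I)).induction with
  | _ α ih =>
    by_cases h : ∃ β, Stp W α β r
    · obtain ⟨β, hβ⟩ := h
      exact h1 α β hβ (ih β hβ.1)
    · exact h0 α (fun β hβ => h ⟨β, hβ⟩)

lemma off_nonneg (α : I) (r : ℝ) : 0 ≤ off W α r := by
  refine walk_induction W r (fun α => 0 ≤ off W α r) ?_ ?_ α
  · intro α h
    rw [off_of_not h]
  · intro α β h ih
    rw [off_of_stp h]
    exact add_nonneg ih (psi_nonneg h.2.2.2)

lemma e_le (α : I) (r : ℝ) : e W α r ≤ α := by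
  refine walk_induction W r (fun α => e W α r ≤ α) ?_ ?_ α
  · intro α h
    rw [e_of_not h]
  · intro α β h ih
    rw [e_of_stp h]
    exact ih.trans h.1.le

lemma e_end (α : I) (r : ℝ) : ∀ β, ¬ Stp W (e W α r) β r := by
  refine walk_induction W r (fun α => ∀ β, ¬ Stp W (e W α r) β r) ?_ ?_ α
  · intro α h
    rwa [e_of_not h]
  · intro α β h ih
    rwa [e_of_stp h]

lemma e_e (α : I) (r : ℝ) : e W (e W α r) r = e W α r := e_of_not (e_end W α r)

lemma off_e (α : I) (r : ℝ) : off W (e W α r) r = 0 := off_of_not (e_end W α r)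

/-- positive digits up to `K` that lie in `S α` lie in `S` of the end of the walk -/
lemma digits_mono (K : ℕ) (r : ℝ) (α : I) (h : ∀ i ≤ K, 0 ≤ zz i r → i ∈ W.S α) :
    ∀ i ≤ K, 0 ≤ zz i r → i ∈ W.S (e W α r) := by
  revert h
  refine walk_induction W r (fun α => (∀ i ≤ K, 0 ≤ zz i r → i ∈ W.S α) →
    ∀ i ≤ K, 0 ≤ zz i r → i ∈ W.S (e W α r)) ?_ ?_ α
  · intro α h h1
    rwa [e_of_not h]
  · intro α β h ih h1
    rw [e_of_stp h]
    apply ih
    have hk : K < W.k α β := by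
      by_contra hc
      exact W.k_not_mem β α h.1 (h1 _ (not_lt.mp hc) h.2.1)
    intro i hi h0
    exact (h.2.2.1 i (lt_of_le_of_lt hi hk) h0).2

lemma local_end (r0 : ℝ) (α : I) : ∃ c : ℝ → ℝ, ContinuousAt c r0 ∧
    ∀ᶠ r in 𝓝 r0, e W α r = e W (e W α r0) r ∧ off W α r = off W (e W α r0) r + c r := by
  refine walk_induction W r0 (fun α => ∃ c : ℝ → ℝ, ContinuousAt c r0 ∧
    ∀ᶠ r in 𝓝 r0, e W α r = e W (e W α r0) r ∧ off W α r = off W (e W α r0) r + c r) ?_ ?_ α
  · intro α h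
    refine ⟨fun _ => 0, continuousAt_const, ?_⟩
    rw [e_of_not h]
    exact Filter.Eventually.of_forall (fun r => ⟨rfl, by simp⟩)
  · intro α β h ⟨c, hc, hev⟩
    refine ⟨fun r => c r + psi (W.lam α) |zz (W.k α β + 1) r|, ?_, ?_⟩
    · refine hc.add ?_
      exact ContinuousAt.comp (g := psi (W.lam α)) (f := fun r => |zz (W.k α β + 1) r|)
        (continuousAt_psi h.2.2.2) (continuous_abs_zz _).continuousAt
    · rw [e_of_stp h]
      filter_upwards [hev, h.eventually] with r hr1 hr2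
      refine ⟨?_, ?_⟩
      · rw [e_of_stp hr2]; exact hr1.1
      · rw [off_of_stp hr2, hr1.2]; ring

lemma local_compare (r0 : ℝ) (α β : I) (h : e W α r0 = e W β r0) :
    ∃ c : ℝ → ℝ, ContinuousAt c r0 ∧
    ∀ᶠ r in 𝓝 r0, e W α r = e W β r ∧ off W α r = off W β r + c r := by
  obtain ⟨c1, hc1, h1⟩ := local_end W r0 α
  obtain ⟨c2, hc2, h2⟩ := local_end W r0 β
  refine ⟨fun r => c1 r - c2 r, hc1.sub hc2, ?_⟩
  filter_upwards [h1, h2] with r hr1 hr2
  rw [← h] at hr2
  refine ⟨hr1.1.trans hr2.1.symm, ?_⟩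
  rw [hr1.2, hr2.2]; ring

/-- the separation estimate for one step -/
lemma sep_step {δ ε a : I} (hne : δ ≠ ε) (ha : a < δ) {r0 : ℝ}
    (hδ : ¬ Stp W δ a r0) (hε : ∀ b, ¬ Stp W ε b r0) (N : ℝ) :
    ∀ᶠ r in 𝓝 r0, Stp W δ a r → N < off W δ r ∧ ∀ b, ¬ Stp W ε b r := by
  set k := W.k δ a with hk
  have hcont : ContinuousAt (fun r => |zz (k + 1) r|) r0 := (continuous_abs_zz _).continuousAt
  rcases lt_trichotomy (|zz (k + 1) r0|) (W.lam δ) with hlt | heq | hgt
  · -- the step fails near `r0`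
    have h1 := eventually_digits (m := k + 1) (hlt.trans (W.lam_lt δ))
    filter_upwards [h1] with r hr hs
    exfalso
    apply hδ
    refine ⟨ha, (hr k (Nat.lt_succ_self _)).mp hs.2.1, ?_, hlt⟩
    intro i hi h0
    exact hs.2.2.1 i hi ((hr i (Nat.lt_succ_of_lt hi)).mpr h0)
  · have hlt2 : |zz (k + 1) r0| < 2 := by rw [heq]; exact W.lam_lt δ
    have h1 := eventually_digits (m := k + 1) hlt2
    have h2 : ∀ᶠ r in 𝓝 r0, 1 < |zz (k + 1) r| := by
      refine hcont.eventually (Ioi_mem_nhds ?_)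
      show 1 < |zz (k + 1) r0|
      rw [heq]; exact W.lam_gt δ
    have h3 : ∀ᶠ r in 𝓝 r0, |zz (k + 1) r| < W.lam δ → N < psi (W.lam δ) |zz (k + 1) r| := by
      have h4 := psi_large (W.lam_gt δ) N
      rw [← heq] at h4
      have h5 := hcont.eventually h4
      filter_upwards [h5] with r hr hr2
      rw [← heq] at hr2 ⊢
      exact hr hr2
    have h4 : ∀ᶠ r in 𝓝 r0, W.lam ε < W.lam δ → W.lam ε < |zz (k + 1) r| := by
      by_cases hl : W.lam ε < W.lam δ
      · have : ∀ᶠ r in 𝓝 r0, W.lam ε < |zz (k + 1) r| := by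
          refine hcont.eventually (Ioi_mem_nhds ?_)
          show W.lam ε < |zz (k + 1) r0|
          rw [heq]; exact hl
        filter_upwards [this] with r hr _
        exact hr
      · exact Filter.Eventually.of_forall (fun r h => absurd h hl)
    filter_upwards [h1, h2, h3, h4] with r hr1 hr2 hr3 hr4 hs
    refine ⟨?_, ?_⟩
    · rw [off_of_stp hs]
      have := hr3 hs.2.2.2
      have h5 := off_nonneg W a r
      linarith
    · intro b hb
      -- the digits at `r` and `r0` below `k + 1` agree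
      have hdig : ∀ i < W.k ε b + 1, W.k ε b ≤ k → (0 ≤ zz i r ↔ 0 ≤ zz i r0) := by
        intro i hi hle
        exact hr1 i (by omega)
      have key : W.k ε b ≤ k → |zz (W.k ε b + 1) r0| < W.lam ε → False := by
        intro hle h5
        apply hε b
        refine ⟨hb.1, (hdig _ (Nat.lt_succ_self _) hle).mp hb.2.1, ?_, h5⟩
        intro i hi h0
        exact hb.2.2.1 i hi ((hdig i (Nat.lt_succ_of_lt hi) hle).mpr h0)
      rcases lt_trichotomy (W.k ε b) k with h | h | h
      · apply key h.le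
        have := abs_zz_lt_one hlt2 (i := W.k ε b + 1) (by omega)
        exact this.trans (W.lam_gt ε)
      · have hlne : W.lam δ ≠ W.lam ε := fun h6 => hne (W.lam_inj h6)
        rcases lt_or_gt_of_ne hlne with h6 | h6
        · apply key h.le
          rw [h, heq]; exact h6
        · have h7 := hr4 h6
          have h8 := hb.2.2.2
          rw [h] at h8
          linarith
      · have h7 := abs_zz_big hr2.le (W.k ε b + 1) (by omega)
        have h8 := hb.2.2.2
        have h9 := W.lam_lt ε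
        linarith
  · have h1 : ∀ᶠ r in 𝓝 r0, W.lam δ < |zz (k + 1) r| := hcont.eventually (Ioi_mem_nhds hgt)
    filter_upwards [h1] with r hr hs
    exact absurd hs.2.2.2 (not_lt.mpr hr.le)

/-- if the walks from two sheets have the same end then one of them starts with a small step -/
lemma small_step {ε δ : I} (hlt : ε < δ) {m : ℕ}
    (hm1 : ∀ a < δ, m ≤ W.k δ a → W.k δ a ∉ W.S ε ∧ ∀ b < ε, W.k ε b ≠ W.k δ a)
    (hm2 : ∀ b < ε, m ≤ W.k ε b → W.k ε b ∉ W.S δ) {r : ℝ} (he : e W δ r = e W ε r) :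
    (∃ a, Stp W δ a r ∧ W.k δ a < m) ∨ (∃ b, Stp W ε b r ∧ W.k ε b < m) := by
  by_cases hδ : ∃ a, Stp W δ a r
  · obtain ⟨a, ha⟩ := hδ
    by_cases hka : W.k δ a < m
    · exact Or.inl ⟨a, ha, hka⟩
    · have hka' : m ≤ W.k δ a := not_lt.mp hka
      obtain ⟨g1, g2⟩ := hm1 a ha.1 hka'
      by_cases hε : ∃ b, Stp W ε b r
      · obtain ⟨b, hb⟩ := hε
        by_cases hkb : W.k ε b < m
        · exact Or.inr ⟨b, hb, hkb⟩
        · have hkb' : m ≤ W.k ε b := not_lt.mp hkb
          exfalso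
          rcases lt_trichotomy (W.k δ a) (W.k ε b) with h | h | h
          · exact g1 (hb.2.2.1 _ h ha.2.1).1
          · exact g2 b hb.1 h.symm
          · exact hm2 b hb.1 hkb' (ha.2.2.1 _ h hb.2.1).1
      · exfalso
        have h1 : e W ε r = ε := e_of_not (fun b hb => hε ⟨b, hb⟩)
        rw [h1, e_of_stp ha] at he
        have h2 := digits_mono W (W.k δ a) r a (by
          intro i hi h0
          rcases Nat.lt_or_ge i (W.k δ a) with h3 | h3
          · exact (ha.2.2.1 i h3 h0).2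
          · have : i = W.k δ a := le_antisymm hi h3
            rw [this]
            exact W.k_mem a δ ha.1) (W.k δ a) le_rfl ha.2.1
        rw [he] at h2
        exact g1 h2
  · exfalso
    have h1 : e W δ r = δ := e_of_not (fun b hb => hδ ⟨b, hb⟩)
    have h2 := e_le W ε r
    rw [← he, h1] at h2
    exact absurd h2 (not_le.mpr hlt)

omit [WellFoundedLT I] in
lemma finite_small {δ : I} (m : ℕ) : {a : I | a < δ ∧ W.k δ a < m}.Finite := by
  refine Set.Finite.of_injOn (f := W.k δ) (t := Set.Iio m) ?_ ?_ (Set.finite_Iio m)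
  · intro a ha; exact ha.2
  · intro a ha b hb h
    exact W.k_inj a b δ ha.1 hb.1 h

/-- two different end sheets at `r0` are far apart near `r0` -/
lemma separation {ε δ : I} (hlt : ε < δ) {r0 : ℝ} (hδ : ∀ b, ¬ Stp W δ b r0)
    (hε : ∀ b, ¬ Stp W ε b r0) (N : ℝ) :
    ∀ᶠ r in 𝓝 r0, e W δ r = e W ε r → N < |off W δ r - off W ε r| := by
  obtain ⟨m, hm1, hm2⟩ := W.fin ε δ hlt
  have h1 : ∀ᶠ r in 𝓝 r0, ∀ a ∈ {a : I | a < δ ∧ W.k δ a < m},
      (Stp W δ a r → N < off W δ r ∧ ∀ b, ¬ Stp W ε b r) :=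
    (Filter.eventually_all_finite (finite_small W m)).mpr
      (fun a ha => sep_step W (ne_of_gt hlt) ha.1 (hδ a) hε N)
  have h2 : ∀ᶠ r in 𝓝 r0, ∀ a ∈ {a : I | a < ε ∧ W.k ε a < m},
      (Stp W ε a r → N < off W ε r ∧ ∀ b, ¬ Stp W δ b r) :=
    (Filter.eventually_all_finite (finite_small W m)).mpr
      (fun a ha => sep_step W (ne_of_lt hlt) ha.1 (hε a) hδ N)
  filter_upwards [h1, h2] with r hr1 hr2 he
  rcases small_step W hlt hm1 hm2 he with ⟨a, ha, hka⟩ | ⟨b, hb, hkb⟩
  · obtain ⟨g1, g2⟩ := hr1 a ⟨ha.1, hka⟩ ha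
    rw [off_of_not g2, sub_zero]
    exact g1.trans_le (le_abs_self _)
  · obtain ⟨g1, g2⟩ := hr2 b ⟨hb.1, hkb⟩ hb
    rw [off_of_not g2, zero_sub, abs_neg]
    exact g1.trans_le (le_abs_self _)

end Pool.Agent.Lib.MP_1abf27_gt
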